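import Pool.Agent.E8helper78.FL.Basic

/-!
# Project FL (MP_b68fb8_co): intersections of cones, of orbits, and the Helly property
-/

set_option autoImplicit false

open scoped RealInnerProductSpace NNReal

namespace Pool.Agent.E8helper85.FL

open Pool.Agent.E8helper78.FL

theorem t_INT (h1 : S_EX) (h2 : S_UNI) : S_INT := by
  intro V _ _ _ Φ c E l r hΦ hE hc hR 𝓜 h𝓜 hNC i x hx
  obtain ⟨M0, hM0⟩ := h𝓜
  obtain ⟨C, a, hC⟩ := h1 V Φ c E l r hΦ hE hc hR M0 (hNC M0 hM0) i x (hx M0 hM0)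
  have hCM : ∀ M ∈ 𝓜, ∀ b ∈ C, b ∈ M := by
    intro M hM b hb
    obtain ⟨D, a', hD⟩ := h1 V Φ c E l r hΦ hE hc hR M (hNC M hM) i x (hx M hM)
    have hCD : C = D := h2 V Φ c E l r hΦ hE hR i x C D a a'
      ⟨fun b hb => (hC.mem b hb).1, hC.pos, hC.comp, hC.sum⟩
      ⟨fun b hb => (hD.mem b hb).1, hD.pos, hD.comp, hD.sum⟩
    exact (hD.mem b (hCD ▸ hb)).2
  rw [hC.sum]
  refine sum_cone (f := fun b => a b • b) fun b hb => smul_cone (mem_cone ?_) (hC.pos b hb).le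
  exact ⟨(hC.mem b hb).1, fun M hM => hCM M hM b hb⟩

section

variable {V : Type} [NormedAddCommGroup V] [InnerProductSpace ℝ V]

lemma Wg_finite {Φ : Set V} (hΦ : IsRoots Φ) (hs : Submodule.span ℝ Φ = ⊤) :
    (Wg Φ : Set (V ≃ₗᵢ[ℝ] V)).Finite := by
  have := hΦ.fin.to_subtype
  refine Set.Finite.of_finite_image (f := fun w : V ≃ₗᵢ[ℝ] V => fun a : Φ => w (a : V)) ?_ ?_
  · refine (Set.Finite.pi (t := fun _ : Φ => Φ) (fun _ => hΦ.fin)).subset ?_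
    rintro _ ⟨w, hw, rfl⟩
    intro a _
    exact hΦ.map hw a.2
  · intro w _ w' _ h
    have h3 : (w.toLinearEquiv : V →ₗ[ℝ] V) = (w'.toLinearEquiv : V →ₗ[ℝ] V) :=
      LinearMap.ext_on hs (fun a ha => congrFun h ⟨a, ha⟩)
    ext x
    exact LinearMap.congr_fun h3 x

lemma Wg_fix {Ψ : Set V} (hu : ∀ a ∈ Ψ, ‖a‖ = 1) {z : V} (hz : ∀ a ∈ Ψ, ⟪z, a⟫ = 0)
    {w : V ≃ₗᵢ[ℝ] V} (hw : w ∈ Wg Ψ) : w z = z := by
  unfold Wg at hw
  induction hw using Subgroup.closure_induction with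
  | mem x hx =>
    obtain ⟨b, hb, rfl⟩ := hx
    exact rf_fix (hu b hb) (by rw [real_inner_comm]; exact hz b hb)
  | one => rfl
  | mul x y _ _ hx hy => rw [mul_apply', hy, hx]
  | inv x _ hx =>
    have h1 := inv_apply x z
    rwa [hx] at h1

end

theorem t_TRI (hI : S_INT) (hD : S_DOM) (hF : S_FIX) (hR : S_ROT) (hEx : S_EEX) (hN : S_NCL) :
    S_TRI := by
  intro V _ _ _ Φ L g hL hS hg a ha T hT hTn v hv
  have hΦ := hS.roots
  have hc : pr L ∈ Wg Φ := pr_mem hS.mem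
  obtain ⟨E, hE⟩ := hEx V Φ L hS
  have hEg : ∀ x y, E x y = ⟪g x, y⟫ := by
    intro x y
    have h := hE (g x) y
    rwa [hg x] at h
  obtain ⟨l, r, hrot, -⟩ := hR V Φ L E hL hS hE
  obtain ⟨i, -, hi⟩ := hrot.all a ha 0
  have hom : ∀ y ∈ pos Φ (l i), 0 ≤ ⟪g a, y⟫ := by
    intro y hy
    rw [← hEg, ← hi]
    exact hrot.nonneg i y hy
  have hN' := hN V Φ (pr L) E hΦ hE hc
  have hspan : Submodule.span ℝ Φ = ⊤ := by
    rw [eq_top_iff, ← hS.span]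
    exact Submodule.span_mono fun x hx => hS.mem x hx
  set Ψ : Set V := {y | y ∈ Φ ∧ ∀ b ∈ T, ⟪g b, y⟫ = 0} with hΨ
  have hΨΦ : Ψ ⊆ Φ := fun y hy => hy.1
  have hfix : ∀ w ∈ Wg Ψ, ∀ b ∈ T, w (g b) = g b := fun w hw b hb =>
    Wg_fix (fun y hy => hΦ.unit y hy.1) (fun y hy => hy.2 b hb) hw
  obtain ⟨w', hw', hmax⟩ := Set.exists_max_image (Wg Ψ : Set (V ≃ₗᵢ[ℝ] V))
    (fun w => ⟪l i, w v⟫) ((Wg_finite hΦ hspan).subset (Wg_mono hΨΦ)) ⟨1, one_mem _⟩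
  have hw'Φ : w' ∈ Wg Φ := Wg_mono hΨΦ hw'
  have hdom : ∀ y ∈ pos Φ (l i), (∀ b ∈ T, ⟪g b, y⟫ = 0) → 0 ≤ ⟪w' v, y⟫ := by
    intro y hy hyT
    by_contra hneg
    rw [not_le] at hneg
    have h1 : ⟪l i, (rf y * w') v⟫ ≤ ⟪l i, w' v⟫ :=
      hmax (rf y * w') (mul_mem (rf_mem ⟨hy.1, hyT⟩) hw')
    rw [mul_apply', rf_apply (hΦ.unit y hy.1), inner_sub_right, inner_smul_right,
      real_inner_comm (w' v) y] at h1
    have h2 := hy.2
    nlinarith [mul_pos (neg_pos.2 hneg) h2]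
  -- the difference lies in all the cones
  set 𝓜 : Set (Submodule ℝ V) := {M | ∃ b ∈ T, M = ⊤ ⊓ LinearMap.ker (E b)} with h𝓜
  have hx : g a - w' v ∈ cone {y | y ∈ pos Φ (l i) ∧ ∀ M ∈ 𝓜, y ∈ M} := by
    refine hI V Φ (pr L) E l r hΦ hE hc hrot 𝓜 ?_ ?_ i _ ?_
    · obtain ⟨b, hb⟩ := hTn
      exact ⟨_, b, hb, rfl⟩
    · rintro M ⟨b, hb, rfl⟩
      exact (hN'.2 ⊤ hN'.1 b (hT hb) trivial).1
    · rintro M ⟨b, hb, rfl⟩
      obtain ⟨w0, hw0, h01, h02⟩ := hv b hb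
      have hwb : w' * w0 ∈ Wg Φ := mul_mem hw'Φ hw0
      have hF' := hF V Φ hΦ (w' * w0) hwb (Submodule.span ℝ {g b}) (by
        intro x hx
        obtain ⟨t, rfl⟩ := Submodule.mem_span_singleton.1 hx
        rw [map_smul, mul_apply', h01, hfix w' hw' b hb])
      have hsub : {y | y ∈ Φ ∧ ∀ x ∈ Submodule.span ℝ {g b}, ⟪x, y⟫ = 0} ⊆ Φ := fun y hy => hy.1
      have hroots : IsRoots {y | y ∈ Φ ∧ ∀ x ∈ Submodule.span ℝ {g b}, ⟪x, y⟫ = 0} := by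
        refine ⟨hΦ.fin.subset hsub, fun y hy => hΦ.unit y hy.1, ?_⟩
        intro y hy z hz
        refine ⟨hΦ.refl y hy.1 z hz.1, fun x hx => ?_⟩
        rw [rf_apply (hΦ.unit y hy.1), inner_sub_right, inner_smul_right, hy.2 x hx, hz.2 x hx]
        ring
      have h3 := hD V {y | y ∈ Φ ∧ ∀ x ∈ Submodule.span ℝ {g b}, ⟪x, y⟫ = 0} (l i) (g a) hroots
        (fun y hy => hrot.reg i y hy.1) (fun y hy => hom y ⟨hy.1.1, hy.2⟩) (w' * w0) hF'
      rw [mul_apply', h02] at h3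
      refine cone_mono ?_ h3
      rintro y ⟨⟨hy1, hy2⟩, hy3⟩
      refine ⟨⟨hy1, hy3⟩, ?_⟩
      refine ⟨trivial, ?_⟩
      show E b y = 0
      rw [hEg]
      exact hy2 _ (Submodule.mem_span_singleton_self _)
  have hge : 0 ≤ ⟪w' v, g a - w' v⟫ := by
    refine cone_nonneg hx (innerₛₗ ℝ (w' v)) ?_
    rintro y ⟨hy1, hy2⟩
    refine hdom y hy1 fun b hb => ?_
    have h4 := (hy2 (⊤ ⊓ LinearMap.ker (E b)) ⟨b, hb, rfl⟩).2
    have h5 : E b y = 0 := h4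
    rwa [hEg] at h5
  have hnorm : ‖g a‖ = ‖w' v‖ := by
    obtain ⟨b, hb⟩ := hTn
    obtain ⟨w0, -, -, h02⟩ := hv b hb
    rw [w'.norm_map, ← h02, w0.norm_map]
  have heq : g a = w' v := by
    have h6 : g a = w' v + (g a - w' v) := by abel
    have h7 : ‖g a‖ ^ 2 = ‖w' v‖ ^ 2 + 2 * ⟪w' v, g a - w' v⟫ + ‖g a - w' v‖ ^ 2 := by
      conv_lhs => rw [h6]
      rw [← real_inner_self_eq_norm_sq, ← real_inner_self_eq_norm_sq,
        ← real_inner_self_eq_norm_sq, inner_add_add_self, real_inner_comm (w' v) (g a - w' v)]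
      ring
    rw [hnorm] at h7
    have h8 : ‖g a - w' v‖ ^ 2 ≤ 0 := by linarith
    have h9 : ‖g a - w' v‖ = 0 := by
      have := sq_nonneg ‖g a - w' v‖
      exact pow_eq_zero_iff (two_ne_zero) |>.1 (le_antisymm h8 this)
    exact sub_eq_zero.1 (norm_eq_zero.1 h9)
  refine ⟨w'⁻¹, inv_mem hw'Φ, fun b hb => hfix _ (inv_mem hw') b hb, ?_⟩
  rw [heq, inv_apply]

theorem t_HEL (h : S_TRI) : S_HEL := by
  intro V _ _ _ Φ L g hL hS hg ι s a v
  classical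
  induction s using Finset.induction_on with
  | empty => exact fun _ _ => ⟨1, one_mem _, by simp⟩
  | insert k s hk ih =>
    intro ha hw
    obtain ⟨u, hu, hu'⟩ := ih (fun j hj => ha j (Finset.mem_insert_of_mem hj))
      (fun j hj k' hk' => hw j (Finset.mem_insert_of_mem hj) k' (Finset.mem_insert_of_mem hk'))
    rcases s.eq_empty_or_nonempty with rfl | hs
    · obtain ⟨w, hw1, hw2, -⟩ := hw k (by simp) k (by simp)
      refine ⟨w, hw1, fun j hj => ?_⟩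
      have : j = k := by simpa using hj
      rw [this]
      exact hw2
    · obtain ⟨w', h1, h2, h3⟩ := h V Φ L g hL hS hg (a k) (ha k (Finset.mem_insert_self k s))
        {b | ∃ j ∈ s, a j = b} (by
          rintro _ ⟨j, hj, rfl⟩
          exact ha j (Finset.mem_insert_of_mem hj)) (by
          obtain ⟨j, hj⟩ := hs
          exact ⟨a j, j, hj, rfl⟩) (u⁻¹ (v k)) (by
          rintro _ ⟨j, hj, rfl⟩
          obtain ⟨w, hw1, hw2, hw3⟩ := hw j (Finset.mem_insert_of_mem hj) k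
            (Finset.mem_insert_self k s)
          refine ⟨u⁻¹ * w, mul_mem (inv_mem hu) hw1, ?_, ?_⟩
          · rw [mul_apply', hw2, ← hu' j hj, inv_apply]
          · rw [mul_apply', hw3])
      refine ⟨u * w', mul_mem hu h1, fun j hj => ?_⟩
      rcases Finset.mem_insert.1 hj with rfl | hj
      · rw [mul_apply', h3, apply_inv]
      · rw [mul_apply', h2 _ ⟨j, hj, rfl⟩, hu' j hj]

end Pool.Agent.E8helper85.FL
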